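import Pool.Agent.W617.LG.StmI

/-!
# Laugwitz' problem, Part I: Poincare lemma on the complement of the origin
-/

set_option autoImplicit false
open Topology Filter Set MeasureTheory
open scoped ContDiff InnerProductSpace

namespace Pool.Agent.W304.LG.Poin

open Pool.Agent.W617.LG

theorem prim {q : ℕ} {F : Type} [NormedAddCommGroup F] [NormedSpace ℝ F] [CompleteSpace F]
    {om : E q → E q →L[ℝ] F} (hom : ∀ x, x ≠ 0 → ContDiffAt ℝ 1 om x)
    (hcl : ∀ x, x ≠ 0 → ∀ u v, fderiv ℝ om x u v = fderiv ℝ om x v u) {p y : E q}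
    (hp : ‖p‖ = 1) (hy : y ≠ 0) (hz : y + ‖y‖ • p ≠ 0) :
    HasFDerivAt (fun y => ∫ᶜ x in Path.segment p y, om x) (om y) y := by
  have hyn : 0 < ‖y‖ := norm_pos_iff.2 hy
  have hin : 0 < ‖y‖ + ⟪y, p⟫_ℝ := by
    have h1 : 0 < ‖y + ‖y‖ • p‖ ^ 2 := by positivity
    rw [norm_add_sq_real, inner_smul_right, norm_smul, hp, norm_norm, mul_one] at h1
    nlinarith
  have h0 : ∀ x ∈ {x : E q | 0 < ⟪y + ‖y‖ • p, x⟫_ℝ}, x ≠ 0 := by
    rintro x hx rfl
    simp at hx
  have hopen : IsOpen {x : E q | 0 < ⟪y + ‖y‖ • p, x⟫_ℝ} :=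
    isOpen_lt continuous_const (continuous_const.inner continuous_id)
  have hconv : Convex ℝ {x : E q | 0 < ⟪y + ‖y‖ • p, x⟫_ℝ} := by
    intro a ha b hb s t hs ht hst
    simp only [mem_setOf_eq] at ha hb ⊢
    rw [inner_add_right, inner_smul_right, inner_smul_right]
    rcases hs.lt_or_eq with h | h
    · have := mul_pos h ha
      have := mul_nonneg ht hb.le
      linarith
    · rw [← h] at hst ⊢
      have : t = 1 := by linarith
      rw [this]; simpa using hb
  have hpm : p ∈ {x : E q | 0 < ⟪y + ‖y‖ • p, x⟫_ℝ} := by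
    simp only [mem_setOf_eq]
    rw [inner_add_left, inner_smul_left, real_inner_self_eq_norm_sq, hp]
    simp only [conj_trivial, one_pow, mul_one]
    linarith
  have hym : y ∈ {x : E q | 0 < ⟪y + ‖y‖ • p, x⟫_ℝ} := by
    simp only [mem_setOf_eq]
    rw [inner_add_left, inner_smul_left, real_inner_self_eq_norm_sq, real_inner_comm]
    simp only [conj_trivial]
    nlinarith
  exact (hconv.hasFDerivWithinAt_curveIntegral_segment_of_hasFDerivWithinAt_symmetric
    (dω := fderiv ℝ om)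
    (fun x hx => ((hom x (h0 x hx)).differentiableAt (by norm_num)).hasFDerivAt.hasFDerivWithinAt)
    (fun a ha x _ y _ => hcl a (h0 a ha) x y) hpm hym).hasFDerivAt (hopen.mem_nhds hym)

theorem main : S_POIN := by
  intro q hq F _ _ _ om hom hcl
  obtain ⟨p, hp⟩ : ∃ p : E q, ‖p‖ = 1 := ⟨EuclideanSpace.single 0 1, by simp⟩
  have hp0 : p ≠ 0 := by rintro rfl; simp at hp
  have hp' : ‖-p‖ = 1 := by rw [norm_neg, hp]
  obtain ⟨f1, hf1⟩ : ∃ f1 : E q → F, ∀ y, y ≠ 0 → y + ‖y‖ • p ≠ 0 → HasFDerivAt f1 (om y) y :=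
    ⟨_, fun y hy hz => prim hom hcl hp hy hz⟩
  obtain ⟨f2, hf2⟩ : ∃ f2 : E q → F, ∀ y, y ≠ 0 → y + ‖y‖ • -p ≠ 0 → HasFDerivAt f2 (om y) y :=
    ⟨_, fun y hy hz => prim hom hcl hp' hy hz⟩
  have hspan1 : ∀ y : E q, y ∉ Submodule.span ℝ {p} → y ≠ 0 ∧ y + ‖y‖ • p ≠ 0 ∧
      y + ‖y‖ • -p ≠ 0 := by
    intro y hy
    refine ⟨?_, ?_, ?_⟩
    · rintro rfl; exact hy (Submodule.zero_mem _)
    · intro h
      apply hy
      rw [Submodule.mem_span_singleton]
      exact ⟨-‖y‖, by rw [neg_smul]; exact (eq_neg_of_add_eq_zero_left h).symm⟩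
    · intro h
      apply hy
      rw [Submodule.mem_span_singleton]
      refine ⟨‖y‖, ?_⟩
      have := eq_neg_of_add_eq_zero_left h
      rw [smul_neg, neg_neg] at this
      exact this.symm
  have hspan2 : ∀ y : E q, y ∈ Submodule.span ℝ {p} → y ≠ 0 → y + ‖y‖ • p ≠ 0 →
      y + ‖y‖ • -p = 0 := by
    intro y hy hy0 h1
    obtain ⟨c, rfl⟩ := Submodule.mem_span_singleton.1 hy
    rcases le_total 0 c with hc | hc
    · rw [norm_smul, hp, mul_one, Real.norm_of_nonneg hc, smul_neg, add_neg_cancel]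
    · exfalso
      apply h1
      rw [norm_smul, hp, mul_one, Real.norm_of_nonpos hc, neg_smul, add_neg_cancel]
  have hW : IsOpen ((Submodule.span ℝ {p} : Submodule ℝ (E q)) : Set (E q))ᶜ :=
    (Submodule.closed_of_finiteDimensional _).isOpen_compl
  have hconn : IsConnected ((Submodule.span ℝ {p} : Submodule ℝ (E q)) : Set (E q))ᶜ := by
    apply isConnected_compl_of_one_lt_codim
    rw [← Module.finrank_eq_rank]
    have h1 := Submodule.finrank_quotient_add_finrank (Submodule.span ℝ {p} : Submodule ℝ (E q))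
    rw [finrank_span_singleton hp0, finrank_euclideanSpace_fin] at h1
    have h2 : 1 < Module.finrank ℝ (E q ⧸ (Submodule.span ℝ {p} : Submodule ℝ (E q))) := by omega
    exact_mod_cast h2
  obtain ⟨c, hc⟩ : ∃ c, EqOn f1 (f2 · + c)
      ((Submodule.span ℝ {p} : Submodule ℝ (E q)) : Set (E q))ᶜ := by
    apply hW.exists_eq_add_of_fderiv_eq (𝕜 := ℝ) hconn.isPreconnected
    · intro y hy
      obtain ⟨a, b, _⟩ := hspan1 y hy
      exact (hf1 y a b).differentiableAt.differentiableWithinAt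
    · intro y hy
      obtain ⟨a, _, b⟩ := hspan1 y hy
      exact (hf2 y a b).differentiableAt.differentiableWithinAt
    · intro y hy
      obtain ⟨a, b, b'⟩ := hspan1 y hy
      rw [(hf1 y a b).fderiv, (hf2 y a b').fderiv]
  have hU1 : IsOpen {y : E q | y ≠ 0 ∧ y + ‖y‖ • p ≠ 0} := by
    refine IsOpen.inter isOpen_ne ?_
    exact isOpen_ne_fun (continuous_id.add (continuous_norm.smul continuous_const))
      continuous_const
  have hU2 : IsOpen {y : E q | y ≠ 0 ∧ y + ‖y‖ • -p ≠ 0} := by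
    refine IsOpen.inter isOpen_ne ?_
    exact isOpen_ne_fun (continuous_id.add (continuous_norm.smul continuous_const))
      continuous_const
  classical
  refine ⟨fun y => if y + ‖y‖ • p ≠ 0 then f1 y else f2 y + c, fun y hy => ?_⟩
  by_cases h : y + ‖y‖ • p ≠ 0
  · refine (hf1 y hy h).congr_of_eventuallyEq ?_
    filter_upwards [hU1.mem_nhds ⟨hy, h⟩] with x hx
    rw [if_pos hx.2]
  · have h' : y + ‖y‖ • -p ≠ 0 := by
      push Not at h
      intro h3
      rw [smul_neg] at h3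
      have h4 : y + y = 0 := by
        have : (y + ‖y‖ • p) + (y + -(‖y‖ • p)) = 0 := by rw [h, h3, add_zero]
        rwa [add_add_add_comm, add_neg_cancel, add_zero] at this
      have h5 : (2 : ℝ) • y = 0 := by rw [two_smul]; exact h4
      exact hy ((smul_eq_zero.1 h5).resolve_left (by norm_num))
    refine ((hf2 y hy h').add_const c).congr_of_eventuallyEq ?_
    filter_upwards [hU2.mem_nhds ⟨hy, h'⟩] with x hx
    by_cases h6 : x + ‖x‖ • p ≠ 0
    · rw [if_pos h6]
      apply hc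
      intro h7
      exact hx.2 (hspan2 x h7 hx.1 h6)
    · rw [if_neg h6]

end Pool.Agent.W304.LG.Poin
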