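import Pool.Agent.W617.LG.StmIV

/-!
# Laugwitz' problem, Part IV: the flow preserves volume
-/

set_option autoImplicit false
open Topology Filter Set MeasureTheory
open scoped ContDiff InnerProductSpace

namespace Pool.Agent.W304.LG.Jac

open Pool.Agent.W617.LG

/-- Symmetry of the mixed second derivatives. -/
theorem mixed {V W : Type*} [NormedAddCommGroup V] [NormedSpace ℝ V] [NormedAddCommGroup W]
    [NormedSpace ℝ W] (G : ℝ × V → W) (x₀ : V) (s : ℝ) (hG : ∀ r, ContDiffAt ℝ ∞ G (r, x₀))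
    (H : V → W) (L : V →L[ℝ] W)
    (hH : ∀ᶠ x in 𝓝 x₀, HasDerivAt (fun r => G (r, x)) (H x) s) (hL : HasFDerivAt H L x₀) :
    HasDerivAt (fun r => fderiv ℝ (fun x => G (r, x)) x₀) L s := by
  have hG2 : ContDiffAt ℝ 2 G (s, x₀) := by
    exact_mod_cast contDiffAt_infty.1 (hG s) 2
  have hA : (fun r => fderiv ℝ (fun x => G (r, x)) x₀) =
      fun r => (fderiv ℝ G (r, x₀)).comp (ContinuousLinearMap.inr ℝ ℝ V) := by
    funext r
    have h1 : HasFDerivAt G (fderiv ℝ G (r, x₀)) (r, x₀) :=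
      ((hG r).differentiableAt (by simp)).hasFDerivAt
    have h2 : HasFDerivAt (fun x => (r, x)) (ContinuousLinearMap.inr ℝ ℝ V) x₀ :=
      hasFDerivAt_prodMk_right r x₀
    exact (h1.comp x₀ h2).fderiv
  have hD : HasFDerivAt (fderiv ℝ G) (fderiv ℝ (fderiv ℝ G) (s, x₀)) (s, x₀) :=
    ((hG2.fderiv_right (m := 1) (by norm_num)).differentiableAt (by norm_num)).hasFDerivAt
  have hr : HasDerivAt (fun r : ℝ => (r, x₀)) ((1 : ℝ), (0 : V)) s :=
    (hasDerivAt_id s).prodMk (hasDerivAt_const s x₀)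
  have h3 : HasDerivAt (fun r => fderiv ℝ G (r, x₀))
      (fderiv ℝ (fderiv ℝ G) (s, x₀) ((1 : ℝ), (0 : V))) s := hD.comp_hasDerivAt s hr
  rw [hA]
  have h4 : HasDerivAt (fun r => (fderiv ℝ G (r, x₀)).comp (ContinuousLinearMap.inr ℝ ℝ V))
      ((fderiv ℝ (fderiv ℝ G) (s, x₀) ((1 : ℝ), (0 : V))).comp
        (ContinuousLinearMap.inr ℝ ℝ V)) s := by
    have h5 := ((ContinuousLinearMap.compL ℝ V (ℝ × V) W).flip
      (ContinuousLinearMap.inr ℝ ℝ V)).hasFDerivAt.comp_hasDerivAt s h3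
    exact h5
  have h6 : (fderiv ℝ (fderiv ℝ G) (s, x₀) ((1 : ℝ), (0 : V))).comp
      (ContinuousLinearMap.inr ℝ ℝ V) = L := by
    have hsymm := hG2.isSymmSndFDerivAt (by simp)
    have h7 : HasFDerivAt (fun x => fderiv ℝ G (s, x) ((1 : ℝ), (0 : V)))
        (((ContinuousLinearMap.apply ℝ W ((1 : ℝ), (0 : V))).comp
          ((fderiv ℝ (fderiv ℝ G) (s, x₀)).comp (ContinuousLinearMap.inr ℝ ℝ V)))) x₀ := by
      have h8 : HasFDerivAt (fun x => (s, x)) (ContinuousLinearMap.inr ℝ ℝ V) x₀ :=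
        hasFDerivAt_prodMk_right s x₀
      exact (ContinuousLinearMap.apply ℝ W ((1 : ℝ), (0 : V))).hasFDerivAt.comp x₀
        (hD.comp x₀ h8)
    have h9 : (fun x => fderiv ℝ G (s, x) ((1 : ℝ), (0 : V))) =ᶠ[𝓝 x₀] H := by
      have h10 : ∀ᶠ p in 𝓝 (s, x₀), ContDiffAt ℝ 2 G p := hG2.eventually (by simp)
      have h11 : Tendsto (fun x : V => (s, x)) (𝓝 x₀) (𝓝 (s, x₀)) :=
        (Continuous.prodMk_right s).continuousAt
      filter_upwards [hH, h11.eventually h10] with x hx1 hx2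
      have h12 : HasFDerivAt G (fderiv ℝ G (s, x)) (s, x) :=
        (hx2.differentiableAt (by norm_num)).hasFDerivAt
      have h13 : HasDerivAt (fun r : ℝ => (r, x)) ((1 : ℝ), (0 : V)) s :=
        (hasDerivAt_id s).prodMk (hasDerivAt_const s x)
      exact (h12.comp_hasDerivAt s h13).unique hx1
    have h14 := (h7.congr_of_eventuallyEq h9.symm).unique hL
    rw [← h14]
    ext v
    simp only [ContinuousLinearMap.comp_apply, ContinuousLinearMap.inr_apply,
      ContinuousLinearMap.apply_apply]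
    exact hsymm.eq _ _
  rw [← h6]
  exact h4

theorem contDiffAt_lam {q : ℕ} {C : TF q} {w : E q} {g : E q → E q} (hC : ContDiffAt ℝ ∞ C w)
    (hg : ContDiffAt ℝ ∞ g w) : ContDiffAt ℝ ∞ (fun y => lam C y (g y)) w := by
  unfold lam
  exact (((hC.clm_apply hg).clm_apply hg).inner ℝ hg)

theorem main : S_FRAME' → S_DIV → S_FIB → S_LIOU → S_JAC := by
  intro hFRAME hDIV hFIB hLIOU q C τ φ hLW hFL x₀ e hx1 hx2 he hGF s
  have hGA : ∀ᶠ x in 𝓝 x₀, (x, e x) ∈ GA C := by
    have h1 : ∀ᶠ x in 𝓝 x₀, 1 < ‖x‖ := continuous_norm.continuousAt.eventually_const_lt hx1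
    have h2 : ∀ᶠ x in 𝓝 x₀, ‖x‖ < 2 := continuous_norm.continuousAt.eventually_lt_const hx2
    filter_upwards [hGF, h1, h2] with x a b c
    exact ⟨a, b.le, c.le⟩
  obtain ⟨G, hG⟩ : ∃ G : ℝ × E q → E q, G = fun p => (φ p.1 (p.2, e p.2)).1 := ⟨_, rfl⟩
  have hsm : ∀ r, ContDiffAt ℝ ∞ (fun p : ℝ × E q => φ p.1 (p.2, e p.2)) (r, x₀) :=
    hFL.smooth x₀ e hx1 hx2 he hGF
  have hGsm : ∀ r, ContDiffAt ℝ ∞ G (r, x₀) := fun r => by
    rw [hG]; exact (hsm r).fst
  have hGx : ∀ r x, G (r, x) = (φ r (x, e x)).1 := fun r x => by rw [hG]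
  obtain ⟨A, hA⟩ : ∃ A : ℝ → (E q →L[ℝ] E q), A = fun r => fderiv ℝ (fun x => G (r, x)) x₀ :=
    ⟨_, rfl⟩
  have key : ∀ r, ∃ B : E q →L[ℝ] E q, HasDerivAt A (B.comp (A r)) r ∧
      LinearMap.trace ℝ (E q) B.toLinearMap = 0 := by
    intro r
    have hmem := hFL.mem (x₀, e x₀) hGA.self_of_nhds r
    obtain ⟨w, hw⟩ : ∃ w, w = (φ r (x₀, e x₀)).1 := ⟨_, rfl⟩
    obtain ⟨e₁, he₁⟩ : ∃ e₁, e₁ = (φ r (x₀, e x₀)).2 := ⟨_, rfl⟩
    have hGFw : GF C w e₁ := by rw [hw, he₁]; exact hmem.1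
    have hw0 : w ≠ 0 := hGFw.x0
    obtain ⟨f, hfw, hf⟩ := hFRAME q C τ hLW w e₁ hGFw.toAF (fun l => (hGFw.pos l).ne')
    have hfs : ContDiffAt ℝ ∞ f w := hf.self_of_nhds.1
    have hfi : ∀ i, ContDiffAt ℝ ∞ (fun y => f y i) w := fun i => (contDiffAt_pi.1 hfs) i
    have hCw : ContDiffAt ℝ ∞ C w := hLW.smooth w hw0
    have hlam : ∀ i, ContDiffAt ℝ ∞ (fun y => lam C y (f y i)) w := fun i =>
      contDiffAt_lam hCw (hfi i)
    have hYd : DifferentiableAt ℝ (fun y => PP C y (f y) • f y 0) w := by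
      have h1 : ContDiffAt ℝ ∞ (fun y => PP C y (f y)) w := by
        unfold PP
        exact contDiffAt_prod fun l _ => hlam l.succ
      exact (h1.smul (hfi 0)).differentiableAt (by simp)
    have hGFf : ∀ᶠ y in 𝓝 w, GF C y (f y) := by
      have h1 : ∀ᶠ y in 𝓝 w, ∀ l : Fin q, 0 < lam C y (f y l.succ) := by
        rw [eventually_all]
        intro l
        refine (hlam l.succ).continuousAt.eventually_const_lt ?_
        show 0 < lam C w (f w l.succ)
        rw [hfw]; exact hGFw.pos l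
      filter_upwards [hf, h1] with y h2 h3
      exact ⟨h2.2, h3⟩
    have hcont : ContinuousAt (fun x => φ r (x, e x)) x₀ := by
      have h1 : ContinuousAt (fun x : E q => (r, x)) x₀ := (Continuous.prodMk_right r).continuousAt
      exact (hsm r).continuousAt.comp_of_eq h1 rfl
    have hc1 : Tendsto (fun x => (φ r (x, e x)).1) (𝓝 x₀) (𝓝 w) := by
      rw [hw]; exact (continuous_fst.continuousAt.comp hcont)
    have hc2 : ContinuousAt (fun x => (φ r (x, e x)).2) x₀ := continuous_snd.continuousAt.comp hcont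
    have hfr : ∀ᶠ x in 𝓝 x₀, (φ r (x, e x)).2 = f ((φ r (x, e x)).1) := by
      have h1 : ∀ᶠ x in 𝓝 x₀, ∀ i, ‖(φ r (x, e x)).2 i - f ((φ r (x, e x)).1) i‖ < 1 := by
        rw [eventually_all]
        intro i
        have h2 : ContinuousAt (fun x => (φ r (x, e x)).2 i) x₀ :=
          (continuous_apply i).continuousAt.comp hc2
        have h3 : ContinuousAt (fun x => f ((φ r (x, e x)).1) i) x₀ := by
          have h4 : ContinuousAt (fun y => f y i) w := (hfi i).continuousAt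
          have h5 : ContinuousAt (fun x => (φ r (x, e x)).1) x₀ :=
            continuous_fst.continuousAt.comp hcont
          exact ContinuousAt.comp_of_eq h4 h5 hw.symm
        refine (h2.sub h3).norm.eventually_lt_const ?_
        simp only [Pi.sub_apply]
        rw [← hw, ← he₁, hfw, sub_self, norm_zero]
        exact one_pos
      filter_upwards [hGA, h1, hc1.eventually hGFf] with x h2 h3 h4
      exact (hFIB q C τ hLW).2 _ _ _ (hFL.mem _ h2 r).1 h4 h3
    refine ⟨fderiv ℝ (fun y => PP C y (f y) • f y 0) w, ?_, ?_⟩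
    · have hGd : HasFDerivAt (fun x => G (r, x)) (A r) x₀ := by
        rw [hA]
        have h1 : DifferentiableAt ℝ (fun x => G (r, x)) x₀ := by
          have h2 : DifferentiableAt ℝ G (r, x₀) := (hGsm r).differentiableAt (by simp)
          exact h2.comp x₀ (hasFDerivAt_prodMk_right r x₀).differentiableAt
        exact h1.hasFDerivAt
      rw [hA]
      refine mixed G x₀ r hGsm (fun x => PP C (G (r, x)) (f (G (r, x))) • f (G (r, x)) 0) _ ?_ ?_
      · filter_upwards [hGA, hfr] with x h1 h2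
        have h3 := hFL.der _ h1 r
        have h4 : HasDerivAt (fun s => (φ s (x, e x)).1) (XF C (φ r (x, e x))).1 r :=
          (ContinuousLinearMap.fst ℝ (E q) (Fin (q + 1) → E q)).hasFDerivAt.comp_hasDerivAt r h3
        have h5 : (fun r' => G (r', x)) = fun s => (φ s (x, e x)).1 := by
          funext r'; exact hGx r' x
        rw [h5, hGx, ← h2]
        exact h4
      · rw [← hA]
        have h6 : G (r, x₀) = w := by rw [hGx, hw]
        have h7 : HasFDerivAt (fun y => PP C y (f y) • f y 0)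
            (fderiv ℝ (fun y => PP C y (f y) • f y 0) w) (G (r, x₀)) := by
          rw [h6]; exact hYd.hasFDerivAt
        exact h7.comp x₀ hGd
    · exact hDIV q C τ hLW w f hfs (hf.mono fun y h => h.2) (fun l => by
        rw [hfw]; exact (hGFw.pos l).ne')
  choose B hB1 hB2 using key
  have h1 := hLIOU q A B hB1 hB2 s
  have h2 : (fun x => (φ s (x, e x)).1) = fun x => G (s, x) := by
    funext x; exact (hGx s x).symm
  have h3 : A 0 = ContinuousLinearMap.id ℝ (E q) := by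
    rw [hA]
    have h4 : (fun x => G (0, x)) =ᶠ[𝓝 x₀] id := by
      filter_upwards [hGA] with x hx
      rw [hGx, hFL.zero _ hx]; rfl
    simp only
    rw [h4.fderiv_eq, fderiv_id]
  rw [h2]
  have h5 : fderiv ℝ (fun x => G (s, x)) x₀ = A s := by rw [hA]
  rw [h5, h1, h3]
  simp [ContinuousLinearMap.det]

end Pool.Agent.W304.LG.Jac
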